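import Pool.Agent.H14.SparsDefs
import Pool.Agent.H14.Ricci

set_option autoImplicit false

namespace Pool.Agent.Results.MP_7ca01f_co.Hubs

open Matrix Finset Pool.Agent.H14 Pool.Agent.H14.Spars Filter

def mat (n : ℕ) (p q : ℝ) : Matrix (Fin 3 ⊕ Fin n) (Fin 3 ⊕ Fin n) ℝ :=
  fromBlocks !![0, p, q; p, 0, 0; q, 0, 0] (of fun _ _ => 1) (of fun _ _ => 1) 0

def G (n : ℕ) : SimpleGraph (Fin 3 ⊕ Fin n) where
  Adj
    | .inl a, .inl b => a ≠ b ∧ (a = 0 ∨ b = 0)
    | .inl _, .inr _ => True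
    | .inr _, .inl _ => True
    | .inr _, .inr _ => False
  symm := ⟨by
    rintro (a | a) (b | b) h
    · exact ⟨h.1.symm, h.2.symm⟩
    · trivial
    · trivial
    · exact h⟩
  loopless := ⟨by
    rintro (a | a) h
    · exact h.1 rfl
    · exact h⟩

instance (n : ℕ) : DecidableRel (G n).Adj
  | .inl a, .inl b => inferInstanceAs (Decidable (a ≠ b ∧ (a = 0 ∨ b = 0)))
  | .inl _, .inr _ => isTrue trivial
  | .inr _, .inl _ => isTrue trivial
  | .inr _, .inr _ => isFalse id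

theorem adj (n : ℕ) : (G n).adjMatrix ℝ = mat n 1 1 := by
  ext (a | a) (b | b)
  · fin_cases a <;> fin_cases b <;> simp [G, mat, SimpleGraph.adjMatrix_apply]
  all_goals simp [G, mat, SimpleGraph.adjMatrix_apply]

theorem lapG (n : ℕ) : (G n).lapMatrix ℝ = wlap (mat n 1 1) := by
  rw [← adj, wlap, SimpleGraph.lapMatrix, SimpleGraph.degMatrix]
  congr 2
  funext u
  simp [SimpleGraph.adjMatrix_apply, SimpleGraph.degree, SimpleGraph.neighborFinset_eq_filter]

theorem form (n : ℕ) (p q : ℝ) (x : Fin 3 ⊕ Fin n → ℝ) :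
    x ⬝ᵥ wlap (mat n p q) *ᵥ x = p * (x (.inl 0) - x (.inl 1)) ^ 2 + q * (x (.inl 0) - x (.inl 2)) ^ 2 +
      ∑ l, ((x (.inl 0) - x (.inr l)) ^ 2 + (x (.inl 1) - x (.inr l)) ^ 2 +
        (x (.inl 2) - x (.inr l)) ^ 2) := by
  have e : ∀ l, (x (.inl 0) - x (.inr l)) ^ 2 + (x (.inl 1) - x (.inr l)) ^ 2 +
      (x (.inl 2) - x (.inr l)) ^ 2 = (x (.inl 0) ^ 2 + x (.inl 1) ^ 2 + x (.inl 2) ^ 2) -
      2 * (x (.inl 0) + x (.inl 1) + x (.inl 2)) * x (.inr l) + 3 * (x (.inr l) * x (.inr l)) := by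
    intro l; ring
  have e2 : ∀ l, x (.inr l) * (3 * x (.inr l) - (x (.inl 0) + x (.inl 1) + x (.inl 2))) =
      3 * (x (.inr l) * x (.inr l)) - (x (.inl 0) + x (.inl 1) + x (.inl 2)) * x (.inr l) := by
    intro l; ring
  rw [wlap, sub_mulVec]
  simp only [dotProduct, Pi.sub_apply, mulVec_diagonal]
  simp only [mulVec, dotProduct, Fintype.sum_sum_type, Fin.sum_univ_three, mat, fromBlocks_apply₁₁,
    fromBlocks_apply₁₂, fromBlocks_apply₂₁, fromBlocks_apply₂₂, of_apply, Matrix.cons_val, e,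
    Matrix.zero_apply, one_mul, zero_mul, sum_const_zero, add_zero, sum_const, card_univ,
    Fintype.card_fin, nsmul_eq_mul, show (1 : ℝ) + 1 + 1 = 3 by norm_num, e2, sum_add_distrib,
    sum_sub_distrib, ← Finset.mul_sum]
  ring

theorem herm (n : ℕ) (p q : ℝ) : (mat n p q).IsHermitian := by
  ext (a | a) (b | b)
  · fin_cases a <;> fin_cases b <;> simp [mat]
  all_goals simp [mat]

theorem low (n : ℕ) (p q : ℝ) : p ≤ lam1 (mat n p q) := by
  have := Rho.ray (mat n p q) (herm n p q) (Sum.elim ![1, 1, 0] 0)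
  simp [dotProduct, mulVec, Fintype.sum_sum_type, Fin.sum_univ_three, mat] at this
  unfold lam1 mat
  linarith

theorem up (m : ℕ) (hm : 1 ≤ m) : lam1 (mat (m * m) 1 1) ≤ 3 * m := by
  have h1 : (1 : ℝ) ≤ m := by exact_mod_cast hm
  refine Ricci.lamMax_le _ (Sum.elim (fun _ => m) fun _ => 1) _ (by positivity) ?_ ?_ ?_
  · rintro (a | a) <;> simp; omega
  · rintro (a | a) (b | b) -
    · fin_cases a <;> fin_cases b <;> simp [mat]
    all_goals simp [mat]
  · rintro (a | a)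
    · fin_cases a <;> simp [mulVec, dotProduct, Fintype.sum_sum_type, Fin.sum_univ_three, mat] <;>
        nlinarith
    · simp [mulVec, dotProduct, Fintype.sum_sum_type, mat]

theorem spars (n : ℕ) (hn : 4 ≤ n) : IsDelSparsifier (G n) (1 / 2) (mat n (1 + n / 4) 0) := by
  have h4 : (4 : ℝ) ≤ n := by exact_mod_cast hn
  refine ⟨fun u v => ?_, ?_, ?_, ⟨.inl 0, .inl 2, by simp [G], by simp [mat]⟩, fun x => ?_⟩
  · simpa using congrFun (congrFun (herm n (1 + n / 4) 0) v) u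
  · rintro (a | a) (b | b)
    · fin_cases a <;> fin_cases b <;> simp [mat] <;> positivity
    all_goals simp [mat]
  · rintro (a | a) (b | b)
    · fin_cases a <;> fin_cases b <;> simp [mat, G]
    all_goals simp [mat, G]
  rw [lapG, form, form]
  set S := ∑ l, ((x (.inl 0) - x (.inr l)) ^ 2 + (x (.inl 1) - x (.inr l)) ^ 2 +
        (x (.inl 2) - x (.inr l)) ^ 2)
  have a1 : n * (x (.inl 0) - x (.inl 1)) ^ 2 ≤ 2 * S := by
    have := Finset.sum_le_sum (s := (univ : Finset (Fin n)))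
      (f := fun _ => (x (.inl 0) - x (.inl 1)) ^ 2)
      (g := fun l => 2 * ((x (.inl 0) - x (.inr l)) ^ 2 + (x (.inl 1) - x (.inr l)) ^ 2 +
        (x (.inl 2) - x (.inr l)) ^ 2)) fun l _ => by
        nlinarith [sq_nonneg (x (.inl 0) + x (.inl 1) - 2 * x (.inr l)), sq_nonneg (x (.inl 2) - x (.inr l))]
    rw [← Finset.mul_sum] at this
    simpa using this
  have a2 : n * (x (.inl 0) - x (.inl 2)) ^ 2 ≤ 2 * S := by
    have := Finset.sum_le_sum (s := (univ : Finset (Fin n)))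
      (f := fun _ => (x (.inl 0) - x (.inl 2)) ^ 2)
      (g := fun l => 2 * ((x (.inl 0) - x (.inr l)) ^ 2 + (x (.inl 1) - x (.inr l)) ^ 2 +
        (x (.inl 2) - x (.inr l)) ^ 2)) fun l _ => by
        nlinarith [sq_nonneg (x (.inl 0) + x (.inl 2) - 2 * x (.inr l)), sq_nonneg (x (.inl 1) - x (.inr l))]
    rw [← Finset.mul_sum] at this
    simpa using this
  have b1 := sq_nonneg (x (.inl 0) - x (.inl 1))
  have b2 := sq_nonneg (x (.inl 0) - x (.inl 2))
  constructor <;> nlinarith [mul_nonneg (sub_nonneg.mpr h4) b2, mul_nonneg (sub_nonneg.mpr h4) b1]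

theorem conn (n : ℕ) : (G n).Connected := by
  have k : ∀ u, (G n).Reachable (.inl 0) u := by
    rintro (a | a)
    · by_cases h : a = 0
      · rw [h]
      · exact SimpleGraph.Adj.reachable ⟨Ne.symm h, Or.inl rfl⟩
    · exact SimpleGraph.Adj.reachable trivial
  exact ⟨fun x y => (k x).symm.trans (k y)⟩

theorem result : ∃ (V : ℕ → Type) (_ : ∀ k, Fintype (V k)) (_ : ∀ k, DecidableEq (V k))
    (G : ∀ k, SimpleGraph (V k)) (_ : ∀ k, DecidableRel (G k).Adj) (ε : ℕ → ℝ)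
    (W : ∀ k, Matrix (V k) (V k) ℝ),
    (∀ k, (G k).Connected ∧ 0 < ε k ∧ ε k < 1 ∧ IsDelSparsifier (G k) (ε k) (W k)) ∧
    Tendsto (fun k => |lam1 (W k) - lam1 ((G k).adjMatrix ℝ)| / (ε k * lam1 ((G k).adjMatrix ℝ)))
      atTop atTop := by
  refine ⟨fun k => Fin 3 ⊕ Fin ((k + 2) * (k + 2)), inferInstance, inferInstance, fun k => G _,
    inferInstance, fun _ => 1 / 2, fun k => mat _ (1 + ((k + 2) * (k + 2) : ℕ) / 4) 0,
    fun k => ⟨conn _, by norm_num, by norm_num, spars _ (by nlinarith)⟩, ?_⟩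
  refine tendsto_atTop_mono (f := fun k : ℕ => (k : ℝ) / 6 + -2) (fun k => ?_)
    (tendsto_atTop_add_const_right _ _ (tendsto_natCast_atTop_atTop.atTop_div_const (by norm_num)))
  simp only [adj]
  have h1 := low ((k + 2) * (k + 2)) 1 1
  have h2 := up (k + 2) (by omega)
  have h3 := low ((k + 2) * (k + 2)) (1 + ((k + 2) * (k + 2) : ℕ) / 4) 0
  rw [le_div_iff₀ (by linarith)]
  refine le_trans ?_ (le_abs_self _)
  push_cast at h2 h3 ⊢
  have hk : (0 : ℝ) ≤ k := by positivity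
  nlinarith [mul_le_mul_of_nonneg_left h2 hk]

end Pool.Agent.Results.MP_7ca01f_co.Hubs
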